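import Pool.Agent.Helper183_TG.MainL2

/-!
# MP_228c3b_gt, Q1: Lück's conjecture on torsion homology growth fails for `A` or for `A × A`

## What Q1 says
For every closed aspherical manifold `M` and every finite index normal chain `(G_i)`:
(a) `ln |tors H_n(M[i])| / [G : G_i] → 0` for all `n` with `2n + 1 ≠ dim M`;
(b) if `dim M = 2m + 1` then `M̃` is det-`L²`-acyclic and
`ln |tors H_m(M[i])| / [G : G_i] → (-1)^m ρ^{(2)}(M̃)`.

## What is proved here
Everything is read off from the cellular chain complex of the universal cover, and is proved for an
arbitrary finite based free complex over `ℤΓ` with a residual chain:

* `CoverTower`: a group `Γ`, a finite based free chain complex `E` over the integral group ring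
  `ℤΓ` (for a manifold: the cellular chain complex of `M̃`; right modules, so the boundary matrix
  `bd` acts from the left on columns) and a residual chain `N n` of normal subgroups of finite
  index.  `level n` is the integral cellular chain complex of the cover `M_n = M̃/Γ_n`.
* `prod`: the tower of `M × M'`, with the product cell structure, group `Γ × Γ'` and residual chain
  `Γ_n × Γ'_n`.
* `betti ℤ`, `betti (ZMod p)`, `tors`: rank of the integral homology, dimension of the homology mod
  `p`, and order of the torsion subgroup of the integral homology, of a cover.
* `Aspherical`: the universal cover is contractible, stated for its cellular chain complex `UC`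
  (free abelian on the pairs of a cell of `M` and an element of `Γ`): the augmented complex has a
  contracting homotopy.
* `Poincare`: Poincaré duality over `ℤΓ`: the cochain complex `C^{dim-*}` and the chain complex of
  the universal cover are chain homotopy equivalent over `ℤΓ`.
* `L2Acyclic`: all `L²`-Betti numbers vanish.  Their sum is the von Neumann dimension of the kernel
  of the combinatorial Laplacian `Δ` in all degrees, that is `lim_{t → ∞} tr_Γ(e^{-tΔ})`.  (That
  this is equivalent to `b_j(M_n) / [Γ : Γ_n] → 0` for all `j` is Lück's approximation theorem; it
  is proved in `CoverTower.lueck`.)
* `rho`: the `L²`-torsion `-½ Σ_j (-1)^j j log det_{𝓝Γ}(Δ_j)`, written with heat traces.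
* `ModGrowth p`: for some degree `j`, `dim H_j(M_n; 𝔽_p) / [Γ : Γ_n]` does not tend to `0`.
* `LueckCounterexample`: an aspherical Poincaré complex for which (a) fails in some degree, or whose
  dimension is odd and for which (b) fails.

`result`: for every aspherical Poincaré tower `A` of odd dimension with nonzero mod `p` homology
growth in some degree, `p` a prime, `A` or `A × A` violates Q1.  More precisely, if `A` is
`L²`-acyclic then the torsion homology growth of `A × A`, whose dimension is even, is not zero in
some degree.  No published theorem is assumed in Lean.

## Why this answers Q1
If `A` comes from a closed aspherical manifold so does `A × A`.  For every odd prime `p`, Avramidi,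
Okun and Schreve (Mod p and torsion homology growth in nonpositive curvature, Invent. Math. 2021)
construct closed locally CAT(0), hence aspherical, 7-manifolds with residually finite fundamental
group and nonzero mod `p` homology growth.  So Q1 is false.  They deduced that Lück's conjecture
and Singer's conjecture cannot both hold; but only the odd-dimensional case of Singer's conjecture
is needed, for the 7-manifold, and in the form of Q1 it is contained in (b).  (If (b) is claimed
only for det-`L²`-acyclic `M̃`, the conclusion is still true: see MP_98dedd_gt.TorsionGrowthFails,
where the odd-dimensional Singer conjecture is deduced from (b) with a hyperbolic 3-manifold.)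

## The proof
Suppose Q1 holds for `A` and `A × A`.  By (b) `A` is `L²`-acyclic, so the universal coefficient
theorem (proved as a count of ranks) shows that for some `a` the `p`-rank `t` of `tors H_a(A_n)` is
not `o([Γ:Γ_n])`.  The tensor product of the torsion gives a `p`-rank at least `t²` in degree `2a`
for `A_n × A_n`, so `log |tors H_{2a}(A_n × A_n)| ≥ t² log p` is not `o([Γ:Γ_n]²)`, against (a).
-/

namespace Pool.Agent.Results.MP_228c3b_gt.LueckConjectureFails

open Pool.Agent.Helper183_TG

/-- Let `A` be an aspherical Poincaré tower of finite covers of odd dimension with nonzero mod `p`
homology growth in some degree.  Then `A` or `A × A` is an aspherical Poincaré tower that violates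
Lück's conjecture (parts (a) and (b) of Q1). -/
theorem result (A : CoverTower) (p : ℕ) [Fact p.Prime] (hAs : A.Aspherical) (hAp : A.Poincare)
    (hA : Odd A.dim) (hg : A.ModGrowth p) :
    A.LueckCounterexample ∨ (A.prod A).LueckCounterexample :=
  CoverTower.squareL2 A p hAs hAp hA hg

end Pool.Agent.Results.MP_228c3b_gt.LueckConjectureFails
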